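import Pool.Agent.MP_d68894_co.H74.Bounded

open Matrix

namespace Pool.Agent.Results.MP_d68894_co.Dantzig

variable {ι : Type} {d : ℕ}

/-- The polyhedron `{x | A x ≤ b}`. -/
def polyhedron (A : Matrix ι (Fin d) ℝ) (b : ι → ℝ) : Set (Fin d → ℝ) := {x | A *ᵥ x ≤ b}

/-- `g` is a circuit: it is not zero and the support of `A g` is inclusion-minimal among the
supports of `A h`, `h ≠ 0`. -/
def IsCircuit (A : Matrix ι (Fin d) ℝ) (g : Fin d → ℝ) : Prop :=
  g ≠ 0 ∧ Minimal (fun S => ∃ h, h ≠ 0 ∧ S = Function.support (A *ᵥ h)) (Function.support (A *ᵥ g))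

/-- `y 0, …, y k` is a circuit walk: points of the polyhedron joined by maximal steps of positive
length along circuits. -/
def IsCircuitWalk (A : Matrix ι (Fin d) ℝ) (b : ι → ℝ) (k : ℕ) (y : ℕ → Fin d → ℝ) : Prop :=
  (∀ t ≤ k, y t ∈ polyhedron A b) ∧ ∀ t < k, ∃ (g : Fin d → ℝ) (α : ℝ), IsCircuit A g ∧ 0 < α ∧
    y (t + 1) = y t + α • g ∧ ∀ β, α < β → y t + β • g ∉ polyhedron A b

open Pool.Agent.MP_d68894_co.H53 in
/-- There is a bounded Dantzig figure `(P, u, v)` of some dimension `d` in which every circuit walk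
from `u` to `v` has more than `d` steps. -/
theorem result : ∃ (d : ℕ) (A : Matrix (Fin d ⊕ Fin d) (Fin d) ℝ) (b : Fin d ⊕ Fin d → ℝ)
    (u v : Fin d → ℝ), 1 ≤ d ∧ (interior (polyhedron A b)).Nonempty ∧
    Bornology.IsBounded (polyhedron A b) ∧
    (∀ i, ∃ x ∉ polyhedron A b, ∀ j ≠ i, (A *ᵥ x) j ≤ b j) ∧
    u ∈ (polyhedron A b).extremePoints ℝ ∧ v ∈ (polyhedron A b).extremePoints ℝ ∧
    {i | (A *ᵥ u) i = b i} = Set.range Sum.inl ∧ {i | (A *ᵥ v) i = b i} = Set.range Sum.inr ∧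
    ∀ (k : ℕ) (y : ℕ → Fin d → ℝ), IsCircuitWalk A b k y → y 0 = u → y k = v → d < k := by
  obtain ⟨d, B, c, hd, hB, hv, hc, ⟨R, hR⟩, hno⟩ := Pool.Agent.MP_d68894_co.H74.counter
  have hBd : IsUnit B.det := (Matrix.isUnit_iff_isUnit_det B).1 hB
  have hBB : ∀ x : Fin d → ℝ, B *ᵥ (B⁻¹ *ᵥ x) = x := fun x => by
    rw [mulVec_mulVec, Matrix.mul_nonsing_inv _ hBd, one_mulVec]
  have hBB' : ∀ x : Fin d → ℝ, B⁻¹ *ᵥ (B *ᵥ x) = x := fun x => by
    rw [mulVec_mulVec, Matrix.nonsing_inv_mul _ hBd, one_mulVec]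
  have e1 : ∀ x a, (Matrix.of (rowA B) *ᵥ x) (Sum.inl a) = -x a := fun x a => rowA_inl B a x
  have e2 : ∀ x a, (Matrix.of (rowA B) *ᵥ x) (Sum.inr a) = (B *ᵥ x) a := fun _ _ => rfl
  have e3 : ∀ a, rhs c (Sum.inl a) = 0 := fun _ => rfl
  have e4 : ∀ a, rhs c (Sum.inr a) = c a := fun _ => rfl
  have hP : ∀ x, x ∈ polyhedron (Matrix.of (rowA B)) (rhs c) ↔ 0 ≤ x ∧ B *ᵥ x ≤ c := fun x => by
    simp only [polyhedron, Set.mem_setOf_eq, Pi.le_def, Sum.forall, e1, e2, e3, e4, neg_nonpos,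
      Pi.zero_apply]
  have small : ∀ (x w : Fin d → ℝ), (∀ a, 0 < x a) → ∃ s : ℝ, 0 < s ∧ ∀ a, 0 ≤ x a + s * w a := by
    intro x w hx
    have : ∀ᶠ s in nhdsWithin (0:ℝ) (Set.Ioi 0), ∀ a, 0 ≤ x a + s * w a := by
      refine Filter.eventually_all.2 fun a => Filter.Eventually.filter_mono nhdsWithin_le_nhds ?_
      have hcont : Continuous fun s : ℝ => x a + s * w a := by fun_prop
      exact (continuousAt_const.eventually_lt hcont.continuousAt (by simpa using hx a)).mono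
        fun s hs => hs.le
    obtain ⟨s, h1, h2⟩ := (this.and self_mem_nhdsWithin).exists
    exact ⟨s, h2, h1⟩
  refine ⟨d, Matrix.of (rowA B), rhs c, 0, B⁻¹ *ᵥ c, hd, ⟨(1 / 2 : ℝ) • (B⁻¹ *ᵥ c), ?_⟩, ?_, ?_,
    ⟨(hP _).2 ⟨le_rfl, fun a => by simpa using (hc a).le⟩, ?_⟩,
    ⟨(hP _).2 ⟨fun a => (hv a).le, (hBB c).le⟩, ?_⟩, ?_, ?_, ?_⟩
  · refine mem_interior.2 ⟨{x | (∀ a, 0 < x a) ∧ ∀ a, (B *ᵥ x) a < c a},
      fun x hx => (hP x).2 ⟨fun a => (hx.1 a).le, fun a => (hx.2 a).le⟩, ?_, fun a => ?_,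
      fun a => ?_⟩
    · simp only [Set.setOf_and, Set.setOf_forall]
      exact (isOpen_iInter_of_finite fun a => isOpen_lt continuous_const (by fun_prop)).inter
        (isOpen_iInter_of_finite fun a => isOpen_lt (by fun_prop) continuous_const)
    · have := hv a
      simp only [Pi.smul_apply, smul_eq_mul]
      linarith
    · have := hc a
      simp only [mulVec_smul, hBB, Pi.smul_apply, smul_eq_mul]
      linarith
  · refine (Metric.isBounded_Icc 0 fun _ => R).subset fun x hx => ⟨((hP x).1 hx).1, fun a => ?_⟩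
    exact (Finset.single_le_sum (fun a _ => ((hP x).1 hx).1 a) (Finset.mem_univ a)).trans
      (hR x ((hP x).1 hx).1 ((hP x).1 hx).2)
  · rintro (i | i)
    · obtain ⟨s, h1, h2⟩ := small c (fun a => B a i) hc
      refine ⟨Pi.single i (-s), fun h => ?_, ?_⟩
      · have := ((hP _).1 h).1 i
        simp at this
        linarith
      · rintro (j | j) hj
        · have : j ≠ i := fun e => hj (by rw [e])
          simp [e1, e3, this]
        · have := h2 j
          simp only [e2, e4, mulVec_single, Pi.smul_apply, col_apply, MulOpposite.smul_eq_mul_unop,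
            MulOpposite.unop_op]
          linarith
    · obtain ⟨s, h1, h2⟩ := small (B⁻¹ *ᵥ c) (B⁻¹ *ᵥ Pi.single i 1) hv
      refine ⟨B⁻¹ *ᵥ c + s • (B⁻¹ *ᵥ Pi.single i 1), fun h => ?_, ?_⟩
      · have := ((hP _).1 h).2 i
        simp only [mulVec_add, mulVec_smul, hBB, Pi.add_apply, Pi.smul_apply, Pi.single_eq_same,
          smul_eq_mul] at this
        linarith
      · rintro (j | j) hj
        · have := h2 j
          simp only [e1, e3, Pi.add_apply, Pi.smul_apply, smul_eq_mul]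
          linarith
        · have : j ≠ i := fun e => hj (by rw [e])
          simp only [e2, e4, mulVec_add, mulVec_smul, hBB, Pi.add_apply, Pi.smul_apply,
            Pi.single_eq_of_ne this, smul_zero, add_zero, le_refl]
  · rintro x hx y hy ⟨s, t, hs, ht, -, h⟩
    funext a
    have h1 := ((hP x).1 hx).1 a
    have h2 := ((hP y).1 hy).1 a
    have h3 := congrFun h a
    simp only [Pi.add_apply, Pi.smul_apply, smul_eq_mul, Pi.zero_apply] at h1 h2 h3 ⊢
    nlinarith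
  · rintro x hx y hy ⟨s, t, hs, ht, hst, h⟩
    rw [← hBB' x]
    refine congrArg _ (funext fun a => ?_)
    have h1 := ((hP x).1 hx).2 a
    have h2 := ((hP y).1 hy).2 a
    have h3 := congrFun (congrArg (B *ᵥ ·) h) a
    simp only [mulVec_add, mulVec_smul, hBB, Pi.add_apply, Pi.smul_apply, smul_eq_mul] at h3
    obtain rfl : t = 1 - s := by linarith
    nlinarith
  · ext (i | i)
    · simp [e3]
    · simpa [e4] using (hc i).ne
  · ext (i | i)
    · simpa [e1, e3, -mulVec_mulVec] using (hv i).ne'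
    · simp [e2, e4, hBB, -mulVec_mulVec]
  · rintro k y ⟨h1, h2⟩ h0 hk
    choose! g α h2 using h2
    refine lt_of_not_ge fun hkd => hno k hkd y g α h0 (by rw [hk, hBB]) h1 fun t ht => ?_
    obtain ⟨⟨h3, h4⟩, -, h5, h6⟩ := h2 t ht
    refine ⟨⟨h3, fun h hh h7 i hi => ?_⟩, h5, fun β hβ => ?_⟩
    · by_contra h8
      exact h4.2 ⟨h, hh, rfl⟩ (fun j hj h9 => hj (h7 j h9)) h8 hi
    · have := h6 β hβ
      simp only [polyhedron, Set.mem_setOf_eq, Pi.le_def, not_forall, not_le] at this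
      exact this

end Pool.Agent.Results.MP_d68894_co.Dantzig
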